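import Pool.Agent.Lib.MP_144d21_co.X4.Iface

/-! # X4, module COLM: simple facts on colourings -/

set_option autoImplicit false

namespace Pool.Agent.Xu.X4.H79

open Finset Pool.Agent.Xu

variable {V : Type} [Fintype V] [DecidableEq V]

theorem restrict {G : SimpleGraph V} {S T : Finset V} {k : ℕ} (hT : T ⊆ S)
    (h : (cols G S k).Nonempty) : (cols G T k).Nonempty := by
  obtain ⟨c, hc⟩ := h
  obtain ⟨h1, -, h3⟩ := mem_cols.1 hc
  refine ⟨fun v => if v ∈ T then c v else 0, mem_cols.2 ⟨fun v hv => ?_, fun v hv => ?_, ?_⟩⟩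
  · simp only [if_pos hv]; exact h1 v (hT hv)
  · simp only [if_neg hv]
  · intro u hu v hv ha
    simp only [if_pos hu, if_pos hv]
    exact h3 u (hT hu) v (hT hv) ha

theorem more {G : SimpleGraph V} {S : Finset V} {k l : ℕ} (hkl : k ≤ l)
    (h : (cols G S k).Nonempty) : (cols G S l).Nonempty := by
  obtain ⟨c, hc⟩ := h
  obtain ⟨h1, h2, h3⟩ := mem_cols.1 hc
  exact ⟨c, mem_cols.2 ⟨fun v hv => (h1 v hv).trans_le hkl, h2, h3⟩⟩

omit [Fintype V] in
/-- an injective colouring of a set with at most `k` elements -/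
theorem inj {S : Finset V} {k : ℕ} (h : S.card ≤ k) :
    ∃ c : V → ℕ, (∀ v ∈ S, c v < k) ∧ (∀ v, v ∉ S → c v = 0) ∧
      ∀ u ∈ S, ∀ v ∈ S, u ≠ v → c u ≠ c v := by
  refine ⟨fun v => if hv : v ∈ S then (S.equivFin ⟨v, hv⟩ : ℕ) else 0, fun v hv => ?_,
    fun v hv => ?_, fun u hu v hv huv => ?_⟩
  · simp only [dif_pos hv]
    exact (Fin.is_lt _).trans_le h
  · simp only [dif_neg hv]
  · simp only [dif_pos hu, dif_pos hv]
    intro he
    have := S.equivFin.injective (Fin.ext he)
    exact huv (congrArg Subtype.val this)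

theorem small {G : SimpleGraph V} {S : Finset V} {k : ℕ} (h : S.card ≤ k) :
    (cols G S k).Nonempty := by
  obtain ⟨c, h1, h2, h3⟩ := inj h
  exact ⟨c, mem_cols.2 ⟨h1, h2, fun u hu v hv ha => h3 u hu v hv ha.ne⟩⟩

/-- a free colour -/
theorem free {G : SimpleGraph V} {S : Finset V} {k : ℕ} {v : V} (hv : v ∈ S)
    (hd : (nb G S v).card < k) (h : (cols G (S.erase v) k).Nonempty) :
    (cols G S k).Nonempty := by
  obtain ⟨c, hc⟩ := h
  obtain ⟨h1, h2, h3⟩ := mem_cols.1 hc
  have hex : ∃ a ∈ range k, a ∉ (nb G S v).image c := by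
    by_contra hcon
    push Not at hcon
    have hsub : range k ⊆ (nb G S v).image c := hcon
    have := card_le_card hsub
    rw [card_range] at this
    exact absurd (this.trans card_image_le) (by omega)
  obtain ⟨a, ha, hna⟩ := hex
  refine ⟨Function.update c v a, mem_cols.2 ⟨fun w hw => ?_, fun w hw => ?_, ?_⟩⟩
  · by_cases hwv : w = v
    · subst hwv; rw [Function.update_self]; exact mem_range.1 ha
    · rw [Function.update_of_ne hwv]; exact h1 w (mem_erase.2 ⟨hwv, hw⟩)
  · have hwv : w ≠ v := fun e => hw (e ▸ hv)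
    rw [Function.update_of_ne hwv]
    exact h2 w fun hh => hw (mem_of_mem_erase hh)
  · intro x hx y hy hxy
    by_cases hxv : x = v
    · subst hxv
      have hyx : y ≠ x := hxy.ne'
      rw [Function.update_self, Function.update_of_ne hyx]
      intro he
      exact hna (mem_image.2 ⟨y, mem_nb.2 ⟨hy, hxy⟩, he.symm⟩)
    · by_cases hyv : y = v
      · subst hyv
        rw [Function.update_self, Function.update_of_ne hxv]
        intro he
        exact hna (mem_image.2 ⟨x, mem_nb.2 ⟨hx, hxy.symm⟩, he⟩)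
      · rw [Function.update_of_ne hxv, Function.update_of_ne hyv]
        exact h3 x (mem_erase.2 ⟨hxv, hx⟩) y (mem_erase.2 ⟨hyv, hy⟩) hxy

theorem two_nonedges {G : SimpleGraph V} {S : Finset V} {k : ℕ} {a b c d : V} (ha : a ∈ S)
    (hb : b ∈ S) (hc : c ∈ S) (hd : d ∈ S) (hab : a ≠ b) (hcd : c ≠ d) (hac : a ≠ c)
    (had : a ≠ d) (hbc : b ≠ c) (hbd : b ≠ d) (nab : ¬ G.Adj a b) (ncd : ¬ G.Adj c d)
    (hS : S.card ≤ k + 2) : (cols G S k).Nonempty := by
  have hcard : ((S.erase b).erase d).card ≤ k := by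
    rw [card_erase_of_mem (mem_erase.2 ⟨hbd.symm, hd⟩), card_erase_of_mem hb]
    omega
  obtain ⟨f, h1, h2, h3⟩ := inj hcard
  have memT : ∀ {v}, v ∈ (S.erase b).erase d ↔ v ≠ d ∧ v ≠ b ∧ v ∈ S := by
    intro v; rw [mem_erase, mem_erase]
  -- the representative of a vertex
  let r : V → V := fun v => if v = b then a else if v = d then c else v
  have hr : ∀ v ∈ S, r v ∈ (S.erase b).erase d := by
    intro v hv
    by_cases e1 : v = b
    · have : r v = a := if_pos e1
      rw [this]; exact memT.2 ⟨had, hab, ha⟩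
    · by_cases e2 : v = d
      · have : r v = c := by simp only [r, if_neg e1, if_pos e2]
        rw [this]; exact memT.2 ⟨hcd, hbc.symm, hc⟩
      · have : r v = v := by simp only [r, if_neg e1, if_neg e2]
        rw [this]; exact memT.2 ⟨e2, e1, hv⟩
  have hne : ∀ u ∈ S, ∀ v ∈ S, G.Adj u v → r u ≠ r v := by
    intro u hu v hv huv he
    have huv' := huv.ne
    simp only [r] at he
    split_ifs at he with e1 e2 e3 e4 e5 e6 e7 e8
    · exact huv' (e1.trans e2.symm)
    · exact hac he
    · rw [e1, ← he] at huv; exact nab huv.symm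
    · exact hac he.symm
    · exact huv' (e4.trans e6.symm)
    · rw [e4, ← he] at huv; exact ncd huv.symm
    · rw [e7, he] at huv; exact nab huv
    · rw [e8, he] at huv; exact ncd huv
    · exact huv' he
  refine ⟨fun v => if v ∈ S then f (r v) else 0, mem_cols.2 ⟨fun v hv => ?_, fun v hv => ?_, ?_⟩⟩
  · simp only [if_pos hv]; exact h1 _ (hr v hv)
  · simp only [if_neg hv]
  · intro u hu v hv ha'
    simp only [if_pos hu, if_pos hv]
    exact h3 _ (hr u hu) _ (hr v hv) (hne u hu v hv ha')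

theorem colm : ColmS := by
  intro V _ _ G S k
  refine ⟨fun T hT h => restrict hT h, fun l hl h => more hl h, fun h => small h,
    fun v hv hd h => free hv hd h, ?_⟩
  intro a ha b hb c hc d hd hab hcd hac had hbc hbd nab ncd hS
  exact two_nonedges ha hb hc hd hab hcd hac had hbc hbd nab ncd hS

end Pool.Agent.Xu.X4.H79
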